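import Pool.Agent.H6.ExtE

/-! `ext_D(ℝ², E(2))` is finite (at most `10`), the plane being `ℂ`. -/

namespace Pool.Agent.Results.MP_84fce2_co.Q1

open Pool.Agent.H6.Ext

theorem result : distNum E2 = 2 ∧ ext E2 ≤ 10 ∧ ext E2 < ⊤ :=
  ⟨e2_distNum, e2_ext, lt_of_le_of_lt e2_ext (ENat.coe_lt_top 10)⟩

end Pool.Agent.Results.MP_84fce2_co.Q1
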